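import Pool.Agent.Helper15.GS.GoalsD
import Pool.Agent.Helper16.HS.AYT

/-!
# GS GEX: existence of the twisted Kähler–Einstein metrics
-/

open Complex Metric Set Filter Topology MeasureTheory
open scoped ContDiff ComplexConjugate ComplexOrder Manifold Matrix

namespace Pool.Agent.Helper18.GS

open Pool.Agent.Helper95.Lin Pool.Agent.Helper16.Abund Pool.Agent.Helper92.Orb
  Pool.Agent.Helper10.SP Pool.Agent.Helper95.RK Pool.Agent.Helper57.HS
  Pool.Agent.Helper15.HS Pool.Agent.Helper15.GS Pool.Agent.Helper16.HS.AYTP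

universe u

theorem gex (hAYG : S_AYG.{u}) (hCMPG : S_CMPG.{u}) (hGUB : S_GUB.{u}) (hRHOI : S_RHOI.{u}) :
    S_GEX.{u} := by
  intro n T G _ R H h hG
  have hH := hG.ket
  have hT := hH.et.isOpen
  obtain ⟨c₁, C₁, hcmp⟩ := hCMPG T R H h hH hG.her
  obtain ⟨hr1, hr2, -, -, -⟩ := hRHOI T R H hH.et (her_ket hH)
  obtain ⟨c, hc⟩ := low_bound hH hr1 hr2
  -- (1) large parameters
  have hlarge : ∀ ε : ℝ, max 1 (1 - c) ≤ ε → ∃ Q, TKE T R H ε Q := by
    intro ε hε
    have hε1 : 1 - c ≤ ε := le_trans (le_max_right _ _) hε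
    have hpos : ∀ x ∈ T, (rho H x - ((-ε : ℝ) : ℂ) • H x).PosDef := by
      intro x hx
      have e : rho H x - ((-ε : ℝ) : ℂ) • H x =
          (rho H x - (c : ℂ) • H x) + ((c + ε : ℝ) : ℂ) • H x := by
        push_cast
        module
      rw [e]
      refine Matrix.PosDef.posSemidef_add (hc x hx) ?_
      exact (hH.posDef x hx).smul (Complex.zero_lt_real.2 (by linarith))
    have hX := lin_comb hH hr1 hr2 (-ε) hpos
    obtain ⟨Q, hQ, hQe⟩ := step hAYG hRHOI hH hX
    refine ⟨Q, hQ, fun x hx => ?_⟩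
    rw [hQe x hx]
    push_cast
    module
  -- (2) one step
  have hc1 : 0 < c₁ := hcmp.1
  have hC1 : 0 < C₁ := hcmp.2.1
  have hn0 : (0 : ℝ) ≤ n := Nat.cast_nonneg n
  set M : ℝ := n * C₁ / c₁ with hM
  have hM0 : 0 ≤ M := by rw [hM]; positivity
  set q : ℝ := 1 - 1 / (2 * (M + 1)) with hq
  have hq0 : 0 < q := by
    rw [hq, sub_pos, div_lt_one (by positivity)]
    linarith
  have hq1 : q < 1 := by
    rw [hq]
    have : 0 < 1 / (2 * (M + 1)) := by positivity
    linarith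
  have hstep : ∀ ε ε' : ℝ, 0 < ε → 0 < ε' → q * ε ≤ ε' → ε' ≤ ε → (∃ Q, TKE T R H ε Q) →
      ∃ Q, TKE T R H ε' Q := by
    rintro ε ε' hε hε' h1 h2 ⟨Q, hQ⟩
    have hub : ∀ x ∈ T, (Matrix.trace (H x * (Q x)⁻¹)).re ≤ M / ε := by
      intro x hx
      have h3 := (hGUB T R H h hG c₁ C₁ hcmp ε Q hε hQ x hx).2
      unfold Bep at h3
      rw [Matrix.trace_smul, smul_eq_mul, Complex.re_ofReal_mul] at h3
      rw [le_div_iff₀ hε, mul_comm]
      exact h3
    have hpos : ∀ x ∈ T, (Q x - ((ε - ε' : ℝ) : ℂ) • H x).PosDef := by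
      intro x hx
      refine sub_posDef (hQ.ket.posDef x hx) (hH.posDef x hx) (by linarith) ?_
      have h3 := hub x hx
      have h4 : ε - ε' ≤ ε * (1 / (2 * (M + 1))) := by
        rw [hq] at h1
        nlinarith
      calc (ε - ε') * (Matrix.trace (H x * (Q x)⁻¹)).re ≤ (ε - ε') * (M / ε) :=
            mul_le_mul_of_nonneg_left h3 (by linarith)
        _ ≤ (ε * (1 / (2 * (M + 1)))) * (M / ε) :=
            mul_le_mul_of_nonneg_right h4 (by positivity)
        _ = M / (2 * (M + 1)) := by field_simp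
        _ < 1 := by
            rw [div_lt_one (by positivity)]
            linarith
    have hX := lin_comb hH (chf_ket hQ.ket) hQ.ket.inv (ε - ε') hpos
    obtain ⟨Q', hQ', hQe⟩ := step hAYG hRHOI hQ.ket hX
    refine ⟨Q', hQ', fun x hx => ?_⟩
    rw [hQe x hx, hQ.eq x hx]
    push_cast
    module
  -- (3) induction
  set ε₀ : ℝ := max 1 (1 - c) with hε₀
  have hε₀pos : 0 < ε₀ := lt_of_lt_of_le one_pos (le_max_left _ _)
  have hind : ∀ m : ℕ, ∀ ε : ℝ, 0 < ε → q ^ m * ε₀ ≤ ε → ∃ Q, TKE T R H ε Q := by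
    intro m
    induction m with
    | zero =>
      intro ε _ h
      rw [pow_zero, one_mul] at h
      exact hlarge ε h
    | succ m ih =>
      intro ε hε h
      rcases le_or_gt (q ^ m * ε₀) ε with h1 | h1
      · exact ih ε hε h1
      · have h2 : 0 < q ^ m * ε₀ := by positivity
        refine hstep (q ^ m * ε₀) ε h2 hε ?_ h1.le (ih _ h2 le_rfl)
        calc q * (q ^ m * ε₀) = q ^ (m + 1) * ε₀ := by ring
          _ ≤ ε := h
  intro ε hε
  obtain ⟨m, hm⟩ := exists_pow_lt_of_lt_one (show 0 < ε / ε₀ by positivity) hq1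
  exact hind m ε hε (by
    have := (lt_div_iff₀ hε₀pos).1 hm
    exact this.le)

end Pool.Agent.Helper18.GS
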